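import Pool.Agent.helper26.EC.SpecS

/-!
# Project EC, row WSM
-/

set_option autoImplicit false

namespace Pool.Agent.EC

open Finset ArithmeticFunction
open Pool.Agent.CH (Win)
open Pool.Agent.CHS (PB WLo WUp WTail)
open Pool.Agent.RLS (SS Dat Good)

/-- the endpoints of the blocks -/
private noncomputable def WSM_t (Ld : ℝ) (i : ℕ) : ℝ := Ld - i * (3 / 16 * Ld / 300)

private lemma WSM_anti (Ld : ℝ) (hL : 0 ≤ Ld) (i j : ℕ) (h : i ≤ j) : WSM_t Ld j ≤ WSM_t Ld i := by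
  unfold WSM_t
  have : (i : ℝ) ≤ j := by exact_mod_cast h
  have h2 : (0 : ℝ) ≤ 3 / 16 * Ld / 300 := by positivity
  nlinarith

private lemma WSM_split (h1 : Pool.Agent.CHS.PA_stmt) (Ld : ℝ) (hL : 0 ≤ Ld) (G : ℕ → ℝ) (n : ℕ) :
    ∑ q ∈ PB (WSM_t Ld (600 + n)) (WSM_t Ld 600), G q =
      ∑ i ∈ Ico 600 (600 + n), ∑ q ∈ PB (WSM_t Ld (i + 1)) (WSM_t Ld i), G q := by
  obtain ⟨pmem, psplit, ppos, pself⟩ := h1
  induction n with
  | zero => simp [pself]
  | succ n ih =>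
    have e := psplit (WSM_t Ld (600 + n + 1)) (WSM_t Ld (600 + n)) (WSM_t Ld 600)
      (WSM_anti Ld hL _ _ (by omega)) (WSM_anti Ld hL _ _ (by omega))
    have e1 : 600 + (n + 1) = 600 + n + 1 := by ring
    rw [e1, e.1, Finset.sum_union e.2.1, ih, Finset.sum_Ico_succ_top (by omega), add_comm]

theorem WSM (h1 : Pool.Agent.CHS.PA_stmt) (h2 : Pool.Agent.CHS.SG_stmt) (h3 : NWU_stmt) : WSM_stmt := by
  intro u A F f hu hD eps heps
  refine ⟨max 70 (80000 / eps), fun Ld hLd => ?_⟩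
  have hL70 : 70 ≤ Ld := le_trans (le_max_left _ _) hLd
  have hLe : 80000 / eps ≤ Ld := le_trans (le_max_right _ _) hLd
  have hL0 : 0 ≤ Ld := by linarith
  have ht600 : WSM_t Ld 600 = 5 / 8 * Ld := by unfold WSM_t; push_cast; ring
  have ht1300 : WSM_t Ld 1300 = 3 / 16 * Ld := by unfold WSM_t; push_cast; ring
  have hZ13 : (13 : ℝ) ≤ 3 / 16 * Ld := by linarith
  have hZ0 : (0 : ℝ) < 3 / 16 * Ld := by linarith
  have hsp := WSM_split h1 Ld hL0 (fun q => gg q * (16 / 3 * F ((Ld - Real.log q) / (3 / 16 * Ld)))) 700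
  have e1300 : 600 + 700 = 1300 := by norm_num
  rw [e1300, ht1300, ht600] at hsp
  rw [hsp]
  obtain ⟨pmem, psplit, ppos, pself⟩ := h1
  have hA4 := hD.A4
  have hA3 := hD.A3
  -- one block
  have hblock : ∀ i ∈ Ico (600 : ℕ) 1300,
      ∑ q ∈ PB (WSM_t Ld (i + 1)) (WSM_t Ld i), gg q * (16 / 3 * F ((Ld - Real.log q) / (3 / 16 * Ld))) ≤
      16 / 3 * F ((i : ℝ) / 300) * Real.log ((1600 - (i : ℝ)) / (1599 - i)) + 32 / 3 * (2 / (3 / 16 * Ld)) := by
    intro i hi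
    rw [Finset.mem_Ico] at hi
    have hi1 : (600 : ℝ) ≤ i := by exact_mod_cast hi.1
    have hi2 : (i : ℝ) ≤ 1299 := by
      have : i ≤ 1299 := by omega
      exact_mod_cast this
    have hlow : 3 / 16 * Ld ≤ WSM_t Ld (i + 1) := by
      rw [← ht1300]
      exact WSM_anti Ld hL0 _ _ (by omega)
    have hti : WSM_t Ld (i + 1) ≤ WSM_t Ld i := WSM_anti Ld hL0 _ _ (by omega)
    have hF0 : 0 ≤ F ((i : ℝ) / 300) := by
      have := hD.F1 ((i : ℝ) / 300) (by rw [le_div_iff₀ (by norm_num)]; linarith)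
        (by rw [div_le_iff₀ (by norm_num)]; linarith)
      linarith
    have hF2 : F ((i : ℝ) / 300) ≤ 2 := by
      have e2 : F 2 = A / 2 := hD.Fs 2 (by norm_num) (by norm_num)
      have := hD.Fa (show (2 : ℝ) ∈ Set.Icc 1 u from ⟨by norm_num, by linarith⟩)
        (show (i : ℝ) / 300 ∈ Set.Icc 1 u from ⟨by rw [le_div_iff₀ (by norm_num)]; linarith,
          by rw [div_le_iff₀ (by norm_num)]; linarith⟩)
        (by rw [le_div_iff₀ (by norm_num)]; linarith)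
      rw [e2] at this
      linarith
    have hterm : ∀ q ∈ PB (WSM_t Ld (i + 1)) (WSM_t Ld i),
        gg q * (16 / 3 * F ((Ld - Real.log q) / (3 / 16 * Ld))) ≤ 1 / ((q : ℝ) - 1) * (16 / 3 * F ((i : ℝ) / 300)) := by
      intro q hq
      have hq1 := (pmem _ _ _).1 hq
      have hg : 0 < 1 / ((q : ℝ) - 1) :=
        ((ppos (WSM_t Ld (i + 1)) (WSM_t Ld i) (by linarith)).2.2.2 q hq).2.1
      have hs1 : (i : ℝ) / 300 ≤ (Ld - Real.log q) / (3 / 16 * Ld) := by
        rw [le_div_iff₀ hZ0]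
        have := hq1.2.2
        unfold WSM_t at this
        linarith
      have hs2 : (Ld - Real.log q) / (3 / 16 * Ld) ≤ u := by
        rw [div_le_iff₀ hZ0]
        have h5 := hq1.2.1
        have h6 : 3 / 16 * Ld ≤ Real.log q := le_trans hlow h5
        nlinarith
      have hmono := hD.Fa
        (show (i : ℝ) / 300 ∈ Set.Icc 1 u from ⟨by rw [le_div_iff₀ (by norm_num)]; linarith,
          by rw [div_le_iff₀ (by norm_num)]; linarith⟩)
        (show (Ld - Real.log q) / (3 / 16 * Ld) ∈ Set.Icc 1 u from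
          ⟨le_trans (by rw [le_div_iff₀ (by norm_num)]; linarith) hs1, hs2⟩) hs1
      show 1 / ((q : ℝ) - 1) * (16 / 3 * F ((Ld - Real.log q) / (3 / 16 * Ld))) ≤ _
      exact mul_le_mul_of_nonneg_left (by linarith) hg.le
    have hsum := Finset.sum_le_sum hterm
    rw [← Finset.sum_mul] at hsum
    have hsig : ∑ q ∈ PB (WSM_t Ld (i + 1)) (WSM_t Ld i), 1 / ((q : ℝ) - 1) ≤
        Real.log (WSM_t Ld i / WSM_t Ld (i + 1)) + 2 / WSM_t Ld (i + 1) :=
      h2 (WSM_t Ld (i + 1)) (WSM_t Ld i) (by linarith) hti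
    have hratio : WSM_t Ld i / WSM_t Ld (i + 1) = (1600 - (i : ℝ)) / (1599 - i) := by
      have ea : WSM_t Ld i = (1600 - (i : ℝ)) * (3 / 16 * Ld / 300) := by
        unfold WSM_t; ring
      have eb : WSM_t Ld (i + 1) = (1599 - (i : ℝ)) * (3 / 16 * Ld / 300) := by
        unfold WSM_t; push_cast; ring
      have hne : (3 / 16 * Ld / 300 : ℝ) ≠ 0 := by positivity
      rw [ea, eb, mul_div_mul_right _ _ hne]
    rw [hratio] at hsig
    have h7 : 2 / WSM_t Ld (i + 1) ≤ 2 / (3 / 16 * Ld) :=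
      div_le_div_of_nonneg_left (by norm_num) hZ0 hlow
    have h8 : (∑ q ∈ PB (WSM_t Ld (i + 1)) (WSM_t Ld i), 1 / ((q : ℝ) - 1)) * (16 / 3 * F ((i : ℝ) / 300)) ≤
        (Real.log ((1600 - (i : ℝ)) / (1599 - i)) + 2 / (3 / 16 * Ld)) * (16 / 3 * F ((i : ℝ) / 300)) :=
      mul_le_mul_of_nonneg_right (by linarith) (by positivity)
    have h9 : (2 / (3 / 16 * Ld)) * (16 / 3 * F ((i : ℝ) / 300)) ≤ (2 / (3 / 16 * Ld)) * (32 / 3) :=
      mul_le_mul_of_nonneg_left (by linarith) (by positivity)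
    calc _ ≤ _ := hsum
      _ ≤ _ := h8
      _ = 16 / 3 * F ((i : ℝ) / 300) * Real.log ((1600 - (i : ℝ)) / (1599 - i)) +
          (2 / (3 / 16 * Ld)) * (16 / 3 * F ((i : ℝ) / 300)) := by ring
      _ ≤ _ := by linarith
  refine (Finset.sum_le_sum hblock).trans ?_
  rw [Finset.sum_add_distrib]
  have h10 := h3 u A F f hu hD
  have h11 : ∑ _i ∈ Ico (600 : ℕ) 1300, 32 / 3 * (2 / (3 / 16 * Ld)) ≤ eps := by
    rw [Finset.sum_const, Nat.card_Ico, nsmul_eq_mul]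
    have e : ((1300 - 600 : ℕ) : ℝ) * (32 / 3 * (2 / (3 / 16 * Ld))) = 716800 / 9 / Ld := by
      push_cast
      field_simp
      norm_num
    rw [e, div_le_iff₀ (by linarith)]
    rw [div_le_iff₀ heps] at hLe
    linarith
  linarith

end Pool.Agent.EC
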